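import Mathlib
import Pool.Agent.H.MP_c74059_gt.A

set_option autoImplicit false

namespace Pool.Agent.Results.MP_c74059_gt.UnderCH

open Set Filter Pool.Agent.H.MP_c74059_gt

universe u

/-- the Menger property. -/
def Menger (X : Type u) [TopologicalSpace X] : Prop :=
  ∀ U : ℕ → Set (Set X), (∀ n, (∀ v ∈ U n, IsOpen v) ∧ ⋃₀ U n = univ) →
    ∃ F : ℕ → Set (Set X), (∀ n, (F n).Finite ∧ F n ⊆ U n) ∧ ∀ x, ∃ n, x ∈ ⋃₀ F n

/-- the Hurewicz property. -/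
def Hurewicz (X : Type u) [TopologicalSpace X] : Prop :=
  ∀ U : ℕ → Set (Set X), (∀ n, (∀ v ∈ U n, IsOpen v) ∧ ⋃₀ U n = univ) →
    ∃ F : ℕ → Set (Set X), (∀ n, (F n).Finite ∧ F n ⊆ U n) ∧ ∀ x, ∀ᶠ n in atTop, x ∈ ⋃₀ F n

theorem cap (j : ℕ) : Continuous fun z : ℕ → Fin 3 => z j := continuous_apply j

theorem cyl {X : Set (ℕ → Fin 3)} {a : Set X} (ha : IsOpen a) {p : X} (hp : p ∈ a) :
    ∃ m, ∀ x : X, (∀ j < m, x.1 j = p.1 j) → x ∈ a := by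
  obtain ⟨a', ha', rfl⟩ := isOpen_induced_iff.mp ha
  obtain ⟨I, w, h1, h2⟩ := isOpen_pi_iff.mp ha' p.1 hp
  refine ⟨I.sup id + 1, fun x hx => h2 fun j hj => ?_⟩
  have : j ≤ I.sup id := Finset.le_sup (f := id) hj
  rw [hx j (by omega)]
  exact (h1 j hj).2

theorem loc {Y : Type u} [TopologicalSpace Y] (hY : Hurewicz Y) {X : Set (ℕ → Fin 3)}
    (U : ℕ → Set (Set (X × Y))) (hU : ∀ n, (∀ v ∈ U n, IsOpen v) ∧ ⋃₀ U n = univ)
    {ι : Type} [Countable ι] (q : ι → X) :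
    ∃ (F : ℕ → ι → Set (Set (X × Y))) (m : ℕ → ι → ℕ), (∀ n i, (F n i).Finite ∧ F n i ⊆ U n) ∧
      ∀ y, ∃ N, ∀ n, N ≤ n → ∀ i, ∀ x : X, (∀ j < m n i, x.1 j = (q i).1 j) → (x, y) ∈ ⋃₀ F n i := by
  classical
  rcases isEmpty_or_nonempty ι with hι | hι
  · exact ⟨fun _ _ => ∅, fun _ _ => 0, fun _ i => isEmptyElim i,
      fun _ => ⟨0, fun _ _ i => isEmptyElim i⟩⟩
  obtain ⟨g, hg⟩ := exists_surjective_nat ι
  choose r hr using hg
  let V : ℕ → Set (Set Y) := fun c => {v | IsOpen v ∧ ∃ w ∈ U (Nat.unpair c).1, ∃ m, ∀ x : X,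
    (∀ j < m, x.1 j = (q (g (Nat.unpair c).2)).1 j) → ∀ y ∈ v, (x, y) ∈ w}
  obtain ⟨W, hW1, hW2⟩ := hY V (fun c => ⟨fun v hv => hv.1, eq_univ_of_forall fun y => by
    have h0 : (q (g (Nat.unpair c).2), y) ∈ ⋃₀ U (Nat.unpair c).1 := by rw [(hU _).2]; trivial
    obtain ⟨w, hw, hy⟩ := h0
    obtain ⟨a, v, ha, hv, h1, h2, h3⟩ := isOpen_prod_iff.mp ((hU _).1 w hw) _ _ hy
    obtain ⟨m, hm⟩ := cyl ha h1
    exact ⟨v, ⟨hv, w, hw, m, fun x hx y' hy' => h3 ⟨hm x hx, hy'⟩⟩, h2⟩⟩)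
  have h1 : ∀ c v, ∃ (w : Set (X × Y)) (m : ℕ), v ∈ W c → w ∈ U (Nat.unpair c).1 ∧ ∀ x : X,
      (∀ j < m, x.1 j = (q (g (Nat.unpair c).2)).1 j) → ∀ y ∈ v, (x, y) ∈ w := by
    intro c v
    by_cases hv : v ∈ W c
    · obtain ⟨_, w, hw, m, hm⟩ := (hW1 c).2 hv
      exact ⟨w, m, fun _ => ⟨hw, hm⟩⟩
    · exact ⟨∅, 0, fun h => absurd h hv⟩
  choose ww mm h2 using h1
  refine ⟨fun n i => ww (Nat.pair n (r i)) '' W (Nat.pair n (r i)),
    fun n i => (hW1 (Nat.pair n (r i))).1.toFinset.sup (mm (Nat.pair n (r i))),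
    fun n i => ⟨(hW1 _).1.image _, ?_⟩, fun y => ?_⟩
  · rintro _ ⟨v, hv, rfl⟩
    simpa using (h2 _ v hv).1
  · obtain ⟨N, hN⟩ := eventually_atTop.mp (hW2 y)
    refine ⟨N, fun n hn i x hx => ?_⟩
    obtain ⟨v, hv, hy⟩ := hN (Nat.pair n (r i)) (hn.trans (Nat.left_le_pair _ _))
    refine ⟨_, ⟨v, hv, rfl⟩, (h2 _ v hv).2 x (fun j hj => ?_) y hy⟩
    rw [Nat.unpair_pair, hr]
    refine hx j (hj.trans_le (Finset.le_sup (f := mm (Nat.pair n (r i))) ?_))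
    simpa using hv

theorem hur {I : Type} [LinearOrder I] (b : I → Set ℕ) (G : I → ℕ → ℕ) (z : I → ℕ → Fin 3)
    (hG : Function.Surjective G) (hc : ∀ t : I, (Iio t).Countable)
    (hb : ∀ u t, u ≤ t → ∃ m, ∀ x ∈ b t, m ≤ x → x ∈ b u)
    (hgap : ∀ t m, ∃ k, m ≤ k ∧ ∀ x ∈ b t, x < k ∨ G t k ≤ x)
    (hz : ∀ t j, z t j ≠ 0 → j ∈ b t) (X : Set (ℕ → Fin 3))
    (hX : X = {x | (∃ k, ∀ j, k ≤ j → x j = 0) ∨ ∃ t, x = z t})
    (Y : Type u) [TopologicalSpace Y] (hY : Hurewicz Y) : Hurewicz (X × Y) := by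
  classical
  intro U hU
  let q : (Σ k : ℕ, (Fin k → Fin 3)) → X := fun s =>
    ⟨fun j => if h : j < s.1 then s.2 ⟨j, h⟩ else 0, hX ▸ Or.inl ⟨s.1, fun j hj => dif_neg (by omega)⟩⟩
  obtain ⟨F, m, hF1, hF2⟩ := loc hY U hU q
  obtain ⟨t0, ht0⟩ := hG fun k => (Finset.range (k + 1)).sup fun n =>
    Finset.univ.sup fun s : Fin k → Fin 3 => m n ⟨k, s⟩
  choose k hk1 hk2 using hgap t0
  have : Countable (Iio t0) := (hc t0).to_subtype
  let q' : Iio t0 → X := fun v => ⟨z v.1, hX ▸ Or.inr ⟨v.1, rfl⟩⟩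
  obtain ⟨F', m', hF3, hF4⟩ := loc hY U hU q'
  obtain ⟨c, hcinj⟩ := exists_injective_nat (Iio t0)
  refine ⟨fun n => (⋃ s : Fin (k n) → Fin 3, F n ⟨k n, s⟩) ∪ ⋃ v ∈ c ⁻¹' Iic n, F' n v,
    fun n => ⟨(finite_iUnion fun s => (hF1 _ _).1).union
      (((finite_Iic n).preimage hcinj.injOn).biUnion fun v _ => (hF3 _ _).1),
      union_subset (iUnion_subset fun s => (hF1 _ _).2)
        (iUnion₂_subset fun v _ => (hF3 _ _).2)⟩, ?_⟩
  rintro ⟨x, y⟩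
  obtain ⟨N, hN⟩ := hF2 y
  obtain ⟨N', hN'⟩ := hF4 y
  have key : ∀ n, N ≤ n → (∀ j, k n ≤ j → j < G t0 (k n) → x.1 j = 0) →
      (x, y) ∈ ⋃₀ ((⋃ s : Fin (k n) → Fin 3, F n ⟨k n, s⟩) ∪ ⋃ v ∈ c ⁻¹' Iic n, F' n v) := by
    intro n hn h0
    obtain ⟨w, hw, hw'⟩ := hN n hn ⟨k n, fun j => x.1 j⟩ x (fun j hj => by
      by_cases h : j < k n
      · simp only [q, dif_pos h]
      · simp only [q, dif_neg h]
        refine h0 j (by omega) (hj.trans_le ?_)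
        rw [ht0]
        refine le_trans ?_ (Finset.le_sup (f := fun n' => Finset.univ.sup
          fun s : Fin (k n) → Fin 3 => m n' ⟨k n, s⟩)
          (Finset.mem_range.mpr (Nat.lt_succ_of_le (hk1 n))))
        exact Finset.le_sup (f := fun s : Fin (k n) → Fin 3 => m n ⟨k n, s⟩) (Finset.mem_univ _))
    exact ⟨w, Or.inl (mem_iUnion.mpr ⟨_, hw⟩), hw'⟩
  have hx : x.1 ∈ {x : ℕ → Fin 3 | (∃ k, ∀ j, k ≤ j → x j = 0) ∨ ∃ t, x = z t} := hX ▸ x.2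
  rcases hx with ⟨k0, hk0⟩ | ⟨t, ht⟩
  · refine eventually_atTop.mpr ⟨N + k0, fun n hn => key n (by omega) fun j hj _ => hk0 j ?_⟩
    have := hk1 n
    omega
  · rcases lt_or_ge t t0 with h | h
    · refine eventually_atTop.mpr ⟨N' + c ⟨t, h⟩, fun n hn => ?_⟩
      obtain ⟨w, hw, hw'⟩ := hN' n (by omega) ⟨t, h⟩ x (fun j _ => by rw [ht])
      exact ⟨w, Or.inr (mem_iUnion₂.mpr ⟨⟨t, h⟩, by show c ⟨t, h⟩ ≤ n; omega, hw⟩), hw'⟩
    · obtain ⟨m0, hm0⟩ := hb t0 t h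
      refine eventually_atTop.mpr ⟨N + m0, fun n hn => key n (by omega) fun j hj hj' => ?_⟩
      by_contra hne
      rw [ht] at hne
      have h1 := hk1 n
      have h2 := hk2 n j (hm0 j (hz t j hne) (by omega))
      omega

theorem men {I : Type} [LinearOrder I] (b : I → Set ℕ)
    (hb : ∀ u t, u ≤ t → ∃ m, ∀ x ∈ b t, m ≤ x → x ∈ b u)
    (hS : ∀ X : ℕ → Set (Finset ℕ), (∀ t n m, ∃ s ∈ X n, ∀ x ∈ s, m ≤ x ∧ x ∈ b t) →
        ∃ S : ℕ → Finset ℕ, (∀ n, S n ∈ X n) ∧ (∀ n, ∀ x ∈ S n, n ≤ x) ∧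
          ∃ u, ∀ t, u ≤ t → ∀ m, ∃ n, m ≤ n ∧ ∀ x ∈ S n, x ∈ b t) :
    Menger {z : ℕ → Fin 3 | ∃ t m, ∀ j ∈ b t, m ≤ j → z j ≠ 0} := by
  classical
  intro U hU
  obtain ⟨S, h1, h2, u0, h3⟩ := hS (fun n => {s | ∃ F ⊆ U n, F.Finite ∧
      ∀ z, (∀ j ∈ s, z.1 j ≠ 0) → z ∈ ⋃₀ F}) (by
    intro t n m
    have h0 : ∀ v : Set {z : ℕ → Fin 3 | ∃ t m, ∀ j ∈ b t, m ≤ j → z j ≠ 0},
        ∃ v' : Set (ℕ → Fin 3), v ∈ U n → IsOpen v' ∧ Subtype.val ⁻¹' v' = v := by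
      intro v
      by_cases hv : v ∈ U n
      · obtain ⟨v', h1, h2⟩ := isOpen_induced_iff.mp ((hU n).1 v hv)
        exact ⟨v', fun _ => ⟨h1, h2⟩⟩
      · exact ⟨∅, fun h => absurd h hv⟩
    choose o ho using h0
    have hK : IsClosed {z : ℕ → Fin 3 | ∀ j ∈ b t, m ≤ j → z j ≠ 0} := by
      simp only [ofPred_forall]
      refine isClosed_iInter fun j => isClosed_iInter fun _ => isClosed_iInter fun _ => ?_
      exact (isClosed_discrete {a : Fin 3 | a ≠ 0}).preimage (cap j)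
    obtain ⟨F, hF1, hF2, hF3⟩ := hK.isCompact.elim_finite_subcover_image (b := U n) (c := o)
      (fun v hv => (ho v hv).1) (fun z hz => by
        have h4 : (⟨z, t, m, hz⟩ : {z : ℕ → Fin 3 | ∃ t m, ∀ j ∈ b t, m ≤ j → z j ≠ 0}) ∈ ⋃₀ U n := by
          rw [(hU n).2]; trivial
        obtain ⟨v, hv, hv'⟩ := h4
        rw [← (ho v hv).2] at hv'
        exact mem_iUnion₂.mpr ⟨v, hv, hv'⟩)
    have hO : IsOpen (⋃ v ∈ F, o v) := isOpen_biUnion fun v hv => (ho v (hF1 hv)).1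
    obtain ⟨T, hT⟩ := hO.isClosed_compl.isCompact.elim_finite_subcover
      (fun j : {j // j ∈ b t ∧ m ≤ j} => {z : ℕ → Fin 3 | z j.1 = 0})
      (fun j => (isOpen_discrete {a : Fin 3 | a = 0}).preimage (cap j.1))
      (fun z hz => by
        by_contra hn
        refine hz (hF3 fun j hj hm h => hn (mem_iUnion.mpr ⟨⟨j, hj, hm⟩, h⟩)))
    refine ⟨T.image Subtype.val, ⟨F, hF1, hF2, fun z hz => ?_⟩, fun x hx => ?_⟩
    · have h5 : z.1 ∈ ⋃ v ∈ F, o v := by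
        by_contra hn
        obtain ⟨j, hj, hj'⟩ := mem_iUnion₂.mp (hT hn)
        exact hz j.1 (Finset.mem_image_of_mem _ hj) hj'
      obtain ⟨v, hv, hv'⟩ := mem_iUnion₂.mp h5
      refine ⟨v, hv, ?_⟩
      rw [← (ho v (hF1 hv)).2]
      exact hv'
    · obtain ⟨j, _, rfl⟩ := Finset.mem_image.mp hx
      exact ⟨j.2.2, j.2.1⟩)
  choose F hF1 hF2 hF3 using h1
  refine ⟨F, fun n => ⟨hF2 n, hF1 n⟩, ?_⟩
  rintro ⟨z, t, m, hz⟩
  obtain ⟨m', hm'⟩ := hb t (max t u0) (le_max_left _ _)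
  obtain ⟨n, hn, hn'⟩ := h3 (max t u0) (le_max_right _ _) (m + m')
  refine ⟨n, hF3 n _ fun j hj => ?_⟩
  have := h2 n j hj
  exact hz j (hm' j (hn' j hj) (by omega)) (by omega)

theorem result (hCH : Cardinal.continuum.{0} = Cardinal.aleph 1) :
    ∃ X : Set (ℕ → Fin 3),
      (∀ (Y : Type u) [TopologicalSpace Y], Hurewicz Y → Hurewicz (X × Y)) ∧
      ∃ M : Set (ℕ → Fin 3), Menger M ∧ ¬ Menger (X × M) := by
  classical
  obtain ⟨I, _, b, G, hG, hc, hinf, hb, hgap, hS⟩ := tower hCH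
  have he : ∀ t, ∃ e : ℕ → ℕ, StrictMono e ∧ ∀ n, e n ∈ b t ∧ G t n ≤ e n := fun t =>
    extraction_forall_of_frequently (P := fun n k => k ∈ b t ∧ G t n ≤ k) fun n =>
      frequently_atTop.mpr fun a => by
        obtain ⟨x, hx, hx'⟩ := (hinf t).exists_gt (a + G t n)
        exact ⟨x, by omega, hx, by omega⟩
  choose e he1 he2 using he
  let z : I → ℕ → Fin 3 := fun t j => if j ∈ range (e t) then 2 else if j ∈ b t then 1 else 0
  have hz1 : ∀ t j, z t j ≠ 0 ↔ j ∈ b t := by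
    intro t j
    by_cases h : j ∈ range (e t)
    · obtain ⟨i, rfl⟩ := h
      simp [z, (he2 t i).1]
    · by_cases h' : j ∈ b t
      · simp only [z, if_neg h, if_pos h']; simp [h']
      · simp only [z, if_neg h, if_neg h']; simp [h']
  have hz2 : ∀ t j, z t j = 2 ↔ j ∈ range (e t) := by
    intro t j
    by_cases h : j ∈ range (e t)
    · simp only [z, if_pos h]; simp [h]
    · simp only [z, if_neg h]
      by_cases h' : j ∈ b t
      · simp only [if_pos h', h]; decide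
      · simp only [if_neg h', h]; decide
  refine ⟨_, fun Y _ hY => hur b G z hG hc hb hgap (fun t j => (hz1 t j).mp) _ rfl Y hY,
    _, men b hb hS, fun hM => ?_⟩
  obtain ⟨F, hF1, hF2⟩ := hM (fun n => insert {p | p.1.1 ≠ p.2.1} (range fun k : ℕ =>
      {p | ∃ A : Finset ℕ, A.card = n + 1 ∧ ∀ j ∈ A, j < k ∧ p.1.1 j = 2})) (fun n => by
    refine ⟨?_, eq_univ_of_forall ?_⟩
    · rintro v (rfl | ⟨k, rfl⟩)
      · exact isOpen_ne_fun (by fun_prop) (by fun_prop)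
      · simp only [ofPred_exists, ofPred_and, ofPred_forall]
        refine isOpen_iUnion fun A => IsOpen.inter isOpen_const (isOpen_biInter_finset fun j _ =>
          IsOpen.inter isOpen_const ?_)
        exact (isOpen_discrete {a : Fin 3 | a = 2}).preimage
          ((cap j).comp (continuous_subtype_val.comp continuous_fst))
    · rintro ⟨⟨x, hx⟩, ⟨y, t, m, hy⟩⟩
      by_cases hxy : x = y
      · subst hxy
        rcases hx with ⟨k, hk⟩ | ⟨t', rfl⟩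
        · obtain ⟨j, hj, hj'⟩ := (hinf t).exists_gt (m + k)
          exact absurd (hk j (by omega)) (hy j hj (by omega))
        · refine ⟨_, Or.inr ⟨e t' (n + 1), rfl⟩, (Finset.range (n + 1)).image (e t'), ?_, ?_⟩
          · rw [Finset.card_image_of_injective _ (he1 t').injective, Finset.card_range]
          · intro j hj
            obtain ⟨i, hi, rfl⟩ := Finset.mem_image.mp hj
            exact ⟨he1 t' (Finset.mem_range.mp hi), (hz2 _ _).mpr ⟨i, rfl⟩⟩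
      · exact ⟨_, Or.inl rfl, hxy⟩)
  have h1 : ∀ n, ∀ v, ∃ k : ℕ, v ∈ F n → ∀ p ∈ v, p.1.1 = p.2.1 →
      ∃ A : Finset ℕ, A.card = n + 1 ∧ ∀ j ∈ A, j < k ∧ p.1.1 j = 2 := by
    intro n v
    by_cases hv : v ∈ F n
    · rcases (hF1 n).2 hv with rfl | ⟨k, rfl⟩
      · exact ⟨0, fun _ p hp h => absurd h hp⟩
      · exact ⟨k, fun _ p hp _ => hp⟩
    · exact ⟨0, fun h => absurd h hv⟩
  choose kk hkk using h1
  obtain ⟨t, ht⟩ := hG fun n => (hF1 n).1.toFinset.sup (kk n)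
  obtain ⟨n, v, hv, hp⟩ := hF2 (⟨z t, Or.inr ⟨t, rfl⟩⟩, ⟨z t, t, 0, fun j hj _ => (hz1 t j).mpr hj⟩)
  obtain ⟨A, hA, hA'⟩ := hkk n v hv _ hp rfl
  have h2 : kk n v ≤ G t n := by
    rw [ht]
    exact Finset.le_sup (f := kk n) (by simpa using hv)
  have h3 : A ⊆ (Finset.range n).image (e t) := by
    intro j hj
    obtain ⟨i, rfl⟩ := (hz2 t j).mp (hA' j hj).2
    refine Finset.mem_image_of_mem _ (Finset.mem_range.mpr ((he1 t).lt_iff_lt.mp ?_))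
    have := (hA' _ hj).1
    have := (he2 t n).2
    omega
  have h4 := (Finset.card_le_card h3).trans Finset.card_image_le
  rw [hA, Finset.card_range] at h4
  omega

end Pool.Agent.Results.MP_c74059_gt.UnderCH
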